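import Pool.Agent.Helper50.Tm.Goals
import Pool.Agent.Helper89.Nm.Compg
import Pool.Agent.Helper5.Nm.Trans

/-!
PROJECT TAME (MP_f619a5_ag), packet TM-COMPG: components of the special fibre and the group law.
-/

set_option autoImplicit false

open CategoryTheory AlgebraicGeometry Limits TensorProduct MonoidalCategory
open Pool.Agent.Helper40.Nm (specOver homGroup specialFibre)

namespace Pool.Agent.Helper69.Tm

theorem gCOMPG : Pool.Agent.Helper50.Tm.COMPG := by
  intro R _ _ G _ s s' r r' hs hr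
  obtain ⟨_, τ, h1, h2⟩ := Pool.Agent.Helper5.Nm.trans R G r
  obtain ⟨⟨σ, h3, h4⟩, _⟩ := Pool.Agent.Helper5.Nm.trans R G s'
  have e1 : Pool.Agent.Helper40.Nm.cpt (s' * r) ∈
      connectedComponentIn (specialFibre G) (Pool.Agent.Helper40.Nm.cpt (s * r)) := by
    rw [h1 s, h1 s']
    exact Pool.Agent.Helper89.Nm.mem_comp_of_homeo τ h2 hs
  have e2 : Pool.Agent.Helper40.Nm.cpt (s' * r') ∈
      connectedComponentIn (specialFibre G) (Pool.Agent.Helper40.Nm.cpt (s' * r)) := by
    rw [h3 r, h3 r']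
    exact Pool.Agent.Helper89.Nm.mem_comp_of_homeo σ h4 hr
  change Pool.Agent.Helper40.Nm.cpt (s' * r') ∈
    connectedComponentIn (specialFibre G) (Pool.Agent.Helper40.Nm.cpt (s * r))
  rw [connectedComponentIn_eq e1]
  exact e2

end Pool.Agent.Helper69.Tm
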